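import Mathlib
import Pool.Agent.H.MP_cd3d06_an.Defs
import Pool.Agent.H.MP_cd3d06_an.ChebLower
import Pool.Agent.H.MP_cd3d06_an.K.Final

/-!
The maximal number of zeros of harmonic polynomials `p(z) + conj (q(z))` with
`deg p = n > deg q = m`.
-/

namespace Pool.Agent.Results.MP_cd3d06_an.ExactValue

open Polynomial Pool.Agent.H.MP_cd3d06_an

theorem result (n m : ℕ) (hm : 1 ≤ m) (hmn : m < n) :
    (∀ p q : ℂ[X], p.natDegree = n → q.natDegree = m → (zeros p q).Finite) ∧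
    IsGreatest {k : ℕ | ∃ p q : ℂ[X], p.natDegree = n ∧ q.natDegree = m ∧
        (zeros p q).ncard = k}
      ((m + 2) * n - m - Nat.gcd m n) := by
  have hub : ∀ p q : ℂ[X], p.natDegree = n → q.natDegree = m →
      (zeros p q).Finite ∧ (zeros p q).ncard ≤ (m + 2) * n - m - Nat.gcd m n := by
    intro p q hp hq
    obtain ⟨h1, h2⟩ := Pool.Agent.HK.sharp_upper hp hq hm hmn
    refine ⟨h1, ?_⟩
    have h3 : (zeros p q).ncard + m + Nat.gcd m n ≤ (m + 2) * n := h2
    omega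
  refine ⟨fun p q hp hq => (hub p q hp hq).1, ?_, ?_⟩
  · obtain ⟨p, q, hp, hq, _, h⟩ := Cheb.lower_sharp n m hm hmn
    refine ⟨p, q, hp, hq, le_antisymm (hub p q hp hq).2 (by omega)⟩
  · rintro k ⟨p, q, hp, hq, rfl⟩
    exact (hub p q hp hq).2

end Pool.Agent.Results.MP_cd3d06_an.ExactValue
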